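import Mathlib
import Pool.Agent.R516.AKP
import Pool.Agent.N524.Szem

/-!
# Progressions with many terms in a set: reduction to full progressions
-/

set_option autoImplicit false

open Finset
open scoped Classical

namespace Pool.Agent.U597.AP
open Pool.Agent.W46.KK

/-- Szemerédi's theorem. -/
theorem szem_range (q : ℕ) (l : ℝ) (hl : 0 < l) : ∃ K0 : ℕ, ∀ K ≥ K0, ∀ E ⊆ Finset.range K,
    l * K ≤ (#E : ℝ) → ∃ a m : ℕ, 1 ≤ m ∧ m ≤ K ∧ ∀ j < q, a + m * j ∈ E := by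
  have hcard : ∀ s : ℕ, #(Finset.Icc (-(s : ℤ)) s) = 2 * s + 1 := by
    intro s
    rw [Int.card_Icc]
    omega
  obtain ⟨s0, hs0⟩ := Pool.Agent.N524.szem_abs (fun s : ℕ => Finset.Icc (-(s : ℤ)) s) 3 (by norm_num)
    (by
      intro s t hst
      apply Finset.Icc_subset_Icc <;> omega)
    (by
      intro v
      refine ⟨v.natAbs, fun s u hu => ?_⟩
      rw [Finset.mem_Icc] at hu ⊢
      push_cast
      have h1 := neg_abs_le v
      have h2 := le_abs_self v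
      constructor <;> linarith)
    (by
      intro K
      refine ⟨K, fun s hs => ?_⟩
      rw [hcard, hcard]
      push_cast
      have : (K : ℝ) ≤ s := by exact_mod_cast hs
      linarith)
    (by
      intro s
      exact ⟨0, by rw [Finset.mem_Icc]; constructor <;> omega⟩)
    ((Finset.range (q + 2)).image fun j : ℕ => (j : ℤ)) (l / 3) (by positivity)
  refine ⟨max s0 1, fun K hK E hE hc => ?_⟩
  have hK0 : s0 ≤ K := le_trans (le_max_left _ _) hK
  have hK1 : 1 ≤ K := le_trans (le_max_right _ _) hK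
  have hK1' : (1 : ℝ) ≤ K := by exact_mod_cast hK1
  obtain ⟨a, j, hj, h⟩ := hs0 K hK0 (E.image fun j : ℕ => (j : ℤ)) (by
    intro x hx
    obtain ⟨y, hy, rfl⟩ := Finset.mem_image.1 hx
    have := Finset.mem_range.1 (hE hy)
    rw [Finset.mem_Icc]
    constructor <;> omega) (by
    rw [hcard, Finset.card_image_of_injective _ Nat.cast_injective]
    push_cast
    nlinarith)
  have hw : ∀ i < q + 2, ∃ y ∈ E, (y : ℤ) = a + j • (i : ℤ) := by
    intro i hi
    have := h (i : ℤ) (Finset.mem_image.2 ⟨i, Finset.mem_range.2 hi, rfl⟩)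
    obtain ⟨y, hy, hy2⟩ := Finset.mem_image.1 this
    exact ⟨y, hy, hy2⟩
  obtain ⟨a0, ha0, ha1⟩ := hw 0 (by omega)
  obtain ⟨a1, hb0, hb1⟩ := hw 1 (by omega)
  simp only [Nat.cast_zero, smul_zero, add_zero, Nat.cast_one, nsmul_eq_mul, mul_one] at ha1 hb1
  have hr := Finset.mem_range.1 (hE hb0)
  refine ⟨a0, j, hj, by omega, fun i hi => ?_⟩
  obtain ⟨y, hy, hy2⟩ := hw i (by omega)
  rw [nsmul_eq_mul, ← ha1] at hy2
  have : y = a0 + j * i := by exact_mod_cast hy2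
  rwa [← this]

/-- Bound for the differences of long progressions with bounded multiples. -/
theorem one_class {c : ℝ} (h : SD c) (hc : 0 < c) : ∃ q : ℕ, ∀ n : ℕ, ∃ D : ℝ, 1 ≤ D ∧
    ∀ (K : ℕ) (R B : Set (EuclideanSpace ℝ (Fin n))),
      (∀ r ∈ R, ∃ (a : EuclideanSpace ℝ (Fin n)) (m : ℕ), 1 ≤ m ∧ m ≤ K ∧
        ∀ j : ℕ, j < q → a + (j : ℝ) • ((m : ℝ) • r) ∈ B) →
      ∀ δ : ℝ, 0 < δ → ∀ V : Finset (EuclideanSpace ℝ (Fin n)), (∀ v ∈ V, v ∈ R) →
        (∀ v ∈ V, ∀ w ∈ V, v ≠ w → ∃ i, δ ≤ |v i - w i|) →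
        ∀ (ι : Type) [Fintype ι] (U : ι → Set (EuclideanSpace ℝ (Fin n))),
        (∀ i, ∀ x ∈ U i, ∀ y ∈ U i, dist x y ≤ δ) → B ⊆ ⋃ i, U i →
        (#V : ℝ) ≤ K * (D * (Fintype.card ι : ℝ)) ^ c := by
  obtain ⟨q, hq⟩ := Pool.Agent.R516.AKP.gen h hc
  refine ⟨q, fun n => ?_⟩
  obtain ⟨D, hD, hq⟩ := hq n
  refine ⟨D, hD, fun K R B hR δ hδ V hV hsep ι _ U hU hcov => ?_⟩
  have hR' : ∀ v : V, ∃ m : ℕ, 1 ≤ m ∧ m ≤ K ∧ ∃ a : EuclideanSpace ℝ (Fin n),
      ∀ j : ℕ, j < q → a + (j : ℝ) • ((m : ℝ) • (v : EuclideanSpace ℝ (Fin n))) ∈ B := by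
    intro v
    obtain ⟨a, m, h1, h2, h3⟩ := hR v (hV v v.2)
    exact ⟨m, h1, h2, a, h3⟩
  choose! mf hm1 hm2 hm3 using (fun (v : EuclideanSpace ℝ (Fin n)) (hv : v ∈ V) => hR' ⟨v, hv⟩)
  have hm4 : ∀ v ∈ V, ∃ a : EuclideanSpace ℝ (Fin n),
      ∀ j : ℕ, j < q → a + (j : ℝ) • ((mf v : ℝ) • v) ∈ B := fun v hv => hm3 v hv
  have hcls : ∀ m ∈ Finset.Icc 1 K, ((#(V.filter fun v => mf v = m) : ℕ) : ℝ) ≤
      (D * (Fintype.card ι : ℝ)) ^ c := by
    intro m hm
    rw [Finset.mem_Icc] at hm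
    have hm0 : (1 : ℝ) ≤ m := by exact_mod_cast hm.1
    have hinj : Function.Injective fun v : EuclideanSpace ℝ (Fin n) => (m : ℝ) • v :=
      smul_right_injective _ (by linarith : (m : ℝ) ≠ 0)
    have := hq {x | ∃ a : EuclideanSpace ℝ (Fin n), ∀ j : ℕ, j < q → a + (j : ℝ) • x ∈ B} B
      (fun r hr => hr) δ hδ ((V.filter fun v => mf v = m).image fun v => (m : ℝ) • v) (by
        intro x hx
        obtain ⟨v, hv, rfl⟩ := Finset.mem_image.1 hx
        rw [Finset.mem_filter] at hv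
        have := hm4 v hv.1
        rw [hv.2] at this
        exact this) (by
        intro x hx y hy hxy
        obtain ⟨v, hv, rfl⟩ := Finset.mem_image.1 hx
        obtain ⟨w, hw, rfl⟩ := Finset.mem_image.1 hy
        rw [Finset.mem_filter] at hv hw
        obtain ⟨i, hi⟩ := hsep v hv.1 w hw.1 (fun e => hxy (by rw [e]))
        refine ⟨i, ?_⟩
        have e : ((m : ℝ) • v) i - ((m : ℝ) • w) i = m * (v i - w i) := by
          simp only [PiLp.smul_apply, smul_eq_mul]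
          ring
        rw [e, abs_mul, abs_of_nonneg (by linarith : (0 : ℝ) ≤ m)]
        nlinarith [abs_nonneg (v i - w i)]) ι U hU hcov
    rwa [Finset.card_image_of_injective _ hinj] at this
  have hsum : (#V : ℝ) = ∑ m ∈ Finset.Icc 1 K, ((#(V.filter fun v => mf v = m) : ℕ) : ℝ) := by
    have := Finset.card_eq_sum_card_fiberwise (f := mf) (s := V) (t := Finset.Icc 1 K) (by
      intro v hv
      rw [Finset.mem_coe, Finset.mem_Icc]
      exact ⟨hm1 v hv, hm2 v hv⟩)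
    rw [this]
    push_cast
    rfl
  rw [hsum]
  refine (Finset.sum_le_sum hcls).trans ?_
  rw [Finset.sum_const, Nat.card_Icc, nsmul_eq_mul]
  simp

end Pool.Agent.U597.AP
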