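import Mathlib
import Pool.Agent.U597.AP.Szem

/-!
# Sets with many terms of long progressions: intermediate dimensions
-/

set_option autoImplicit false

open Finset Filter Topology
open scoped Classical ENNReal

namespace Pool.Agent.U597.AP
open Pool.Agent.W46.KK

/-- Every cover of `K` by sets with diameters in `[ρ, δ]` has `∑ diam ^ s ≥ ε`. -/
def CoverBd {n : ℕ} (ε ρ δ s : ℝ) (K : Set (EuclideanSpace ℝ (Fin n))) : Prop :=
  ∀ (ι : Type) (t : ι → Set (EuclideanSpace ℝ (Fin n))), K ⊆ ⋃ i, t i →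
    (∀ i, ENNReal.ofReal ρ ≤ Metric.ediam (t i) ∧ Metric.ediam (t i) ≤ ENNReal.ofReal δ) →
    ENNReal.ofReal ε ≤ ∑' i, Metric.ediam (t i) ^ s

theorem scales {δ θ τ : ℝ} (hδ0 : 0 < δ) (hδ1 : δ < 1) (hθ0 : 0 < θ) (hθ1 : θ ≤ 1) (hτ : 0 < τ)
    (M : ℕ) (hM : 1 ≤ M) (hM2 : 1 / θ ≤ (1 + τ) ^ M) :
    ∃ ρ : ℕ → ℝ, (∀ i, δ ^ (1 / θ) ≤ ρ i ∧ ρ i ≤ δ) ∧
      ∀ y : ℝ, δ ^ (1 / θ) ≤ y → y ≤ δ → ∃ i < M, (ρ i) ^ (1 + τ) ≤ y ∧ y ≤ ρ i := by
  have h1θ : 1 ≤ 1 / θ := by rw [le_div_iff₀ hθ0]; linarith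
  have hp : ∀ i : ℕ, (1 : ℝ) ≤ (1 + τ) ^ i := fun i => one_le_pow₀ (by linarith)
  refine ⟨fun i => max (δ ^ ((1 + τ) ^ i)) (δ ^ (1 / θ)), fun i => ⟨le_max_right _ _, ?_⟩, ?_⟩
  · apply max_le
    · calc δ ^ ((1 + τ) ^ i) ≤ δ ^ (1 : ℝ) :=
          Real.rpow_le_rpow_of_exponent_ge hδ0 hδ1.le (hp i)
        _ = δ := Real.rpow_one _
    · calc δ ^ (1 / θ) ≤ δ ^ (1 : ℝ) := Real.rpow_le_rpow_of_exponent_ge hδ0 hδ1.le h1θ
        _ = δ := Real.rpow_one _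
  · intro y hy1 hy2
    have hex : ∃ i, δ ^ ((1 + τ) ^ (i + 1)) ≤ y := by
      refine ⟨M - 1, ?_⟩
      rw [Nat.sub_add_cancel hM]
      exact le_trans (Real.rpow_le_rpow_of_exponent_ge hδ0 hδ1.le hM2) hy1
    obtain ⟨i, hi⟩ : ∃ i, i = Nat.find hex := ⟨_, rfl⟩
    have hi1 : δ ^ ((1 + τ) ^ (i + 1)) ≤ y := by rw [hi]; exact Nat.find_spec hex
    have hiM : i < M := by
      have : i ≤ M - 1 := by
        rw [hi]
        apply Nat.find_min'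
        rw [Nat.sub_add_cancel hM]
        exact le_trans (Real.rpow_le_rpow_of_exponent_ge hδ0 hδ1.le hM2) hy1
      omega
    have hi2 : y ≤ δ ^ ((1 + τ) ^ i) := by
      rcases Nat.eq_zero_or_pos i with h0 | h0
      · rw [h0, pow_zero, Real.rpow_one]
        exact hy2
      · have := Nat.find_min hex (m := i - 1) (by omega)
        rw [Nat.sub_add_cancel h0] at this
        exact (not_le.1 this).le
    refine ⟨i, hiM, ?_, hi2.trans (le_max_left _ _)⟩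
    rcases le_total (δ ^ ((1 + τ) ^ i)) (δ ^ (1 / θ)) with h | h
    · show (max (δ ^ ((1 + τ) ^ i)) (δ ^ (1 / θ))) ^ (1 + τ) ≤ y
      rw [max_eq_right h, ← Real.rpow_mul hδ0.le]
      refine le_trans (Real.rpow_le_rpow_of_exponent_ge hδ0 hδ1.le ?_) hy1
      nlinarith
    · show (max (δ ^ ((1 + τ) ^ i)) (δ ^ (1 / θ))) ^ (1 + τ) ≤ y
      rw [max_eq_left h, ← Real.rpow_mul hδ0.le, ← pow_succ]
      exact hi1

/-- a maximal separated set -/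
theorem max_sep {n : ℕ} (R : Set (EuclideanSpace ℝ (Fin n))) (δ : ℝ) (hδ : 0 < δ) (b : ℕ)
    (hb : ∀ V : Finset (EuclideanSpace ℝ (Fin n)), (∀ v ∈ V, v ∈ R) →
      (∀ v ∈ V, ∀ w ∈ V, v ≠ w → ∃ i, δ ≤ |v i - w i|) → #V ≤ b) :
    ∃ V : Finset (EuclideanSpace ℝ (Fin n)), (∀ v ∈ V, v ∈ R) ∧
      (∀ v ∈ V, ∀ w ∈ V, v ≠ w → ∃ i, δ ≤ |v i - w i|) ∧
      ∀ r ∈ R, ∃ v ∈ V, ∀ i, |r i - v i| < δ := by
  let P : ℕ → Prop := fun m => ∃ V : Finset (EuclideanSpace ℝ (Fin n)), (∀ v ∈ V, v ∈ R) ∧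
      (∀ v ∈ V, ∀ w ∈ V, v ≠ w → ∃ i, δ ≤ |v i - w i|) ∧ #V = m
  have hP0 : P 0 := ⟨∅, by simp, by simp, by simp⟩
  have hPg : P (Nat.findGreatest P b) := Nat.findGreatest_spec (Nat.zero_le b) hP0
  obtain ⟨V, h1, h2, h3⟩ := hPg
  refine ⟨V, h1, h2, fun r hr => ?_⟩
  by_contra hcon
  push Not at hcon
  have hrV : r ∉ V := by
    intro h
    obtain ⟨i, hi⟩ := hcon r h
    rw [sub_self, abs_zero] at hi
    linarith
  have h4 : (∀ v ∈ insert r V, v ∈ R) := by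
    intro v hv
    rcases Finset.mem_insert.1 hv with rfl | hv
    · exact hr
    · exact h1 v hv
  have h5 : (∀ v ∈ insert r V, ∀ w ∈ insert r V, v ≠ w → ∃ i, δ ≤ |v i - w i|) := by
    intro v hv w hw hvw
    rcases Finset.mem_insert.1 hv with hv1 | hv1
    · rcases Finset.mem_insert.1 hw with hw1 | hw1
      · exact absurd (hv1.trans hw1.symm) hvw
      · rw [hv1]
        exact hcon w hw1
    · rcases Finset.mem_insert.1 hw with hw1 | hw1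
      · obtain ⟨i, hi⟩ := hcon v hv1
        rw [hw1]
        exact ⟨i, by rwa [abs_sub_comm]⟩
      · exact h2 v hv1 w hw1 hvw
  have h6 := hb _ h4 h5
  have h7 : #(insert r V) ≤ Nat.findGreatest P b :=
    Nat.le_findGreatest h6 ⟨_, h4, h5, rfl⟩
  rw [Finset.card_insert_of_notMem hrV, h3] at h7
  omega

/-- a cube covered by balls -/
theorem cube_balls {n : ℕ} (L : ℕ) (hL : 1 ≤ L) (hnL : (n : ℝ) ≤ (L : ℝ) ^ 2) (ρ : ℝ) (hρ : 0 < ρ)
    (v r : EuclideanSpace ℝ (Fin n)) (h : ∀ i, |r i - v i| < ρ) :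
    ∃ z : Fin n → Fin (2 * L + 1), r ∈ Metric.closedBall
      (v + (ρ / L) • (WithLp.toLp 2 fun i => ((z i : ℕ) : ℝ) - L)) (ρ / 2) := by
  have hL' : (1 : ℝ) ≤ L := by exact_mod_cast hL
  have hL0 : (0 : ℝ) < L := by linarith
  -- rounding
  have hround : ∀ i, ∃ z : Fin (2 * L + 1), |r i - v i - ρ / L * (((z : ℕ) : ℝ) - L)| ≤
      ρ / (2 * L) := by
    intro i
    obtain ⟨x, hx⟩ : ∃ x : ℝ, x = (r i - v i) * L / ρ + L := ⟨_, rfl⟩
    have h1 := abs_lt.1 (h i)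
    have hx0 : 0 ≤ x := by
      rw [hx]
      have : -(L : ℝ) ≤ (r i - v i) * L / ρ := by
        rw [le_div_iff₀ hρ]
        nlinarith
      linarith
    have hx1 : x ≤ 2 * L := by
      rw [hx]
      have : (r i - v i) * L / ρ ≤ L := by
        rw [div_le_iff₀ hρ]
        nlinarith
      linarith
    have hfl := Int.floor_le (x + 1 / 2)
    have hfl2 := Int.lt_floor_add_one (x + 1 / 2)
    have hz0 : 0 ≤ ⌊x + 1 / 2⌋ := Int.floor_nonneg.2 (by linarith)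
    have hz1 : ⌊x + 1 / 2⌋ ≤ 2 * L := by
      rw [← Int.lt_add_one_iff, Int.floor_lt]
      push_cast
      linarith
    obtain ⟨z, hz⟩ := Int.eq_ofNat_of_zero_le hz0
    have hzL : z < 2 * L + 1 := by omega
    refine ⟨⟨z, hzL⟩, ?_⟩
    have e : ((z : ℕ) : ℝ) = ((⌊x + 1 / 2⌋ : ℤ) : ℝ) := by rw [hz]; simp
    have e2 : r i - v i - ρ / L * ((((⟨z, hzL⟩ : Fin (2 * L + 1)) : ℕ) : ℝ) - L) =
        ρ / L * (x - ((⌊x + 1 / 2⌋ : ℤ) : ℝ)) := by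
      show r i - v i - ρ / L * ((z : ℝ) - L) = _
      rw [e, hx]
      field_simp
      ring
    rw [e2, abs_mul, abs_of_pos (by positivity)]
    have e3 : |x - ((⌊x + 1 / 2⌋ : ℤ) : ℝ)| ≤ 1 / 2 := by
      rw [abs_le]
      constructor <;> linarith
    calc ρ / L * |x - ((⌊x + 1 / 2⌋ : ℤ) : ℝ)| ≤ ρ / L * (1 / 2) :=
          mul_le_mul_of_nonneg_left e3 (by positivity)
      _ = ρ / (2 * L) := by field_simp
  choose z hz using hround
  refine ⟨z, ?_⟩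
  rw [Metric.mem_closedBall, EuclideanSpace.dist_eq]
  apply Real.sqrt_le_iff.2
  refine ⟨by positivity, ?_⟩
  have h2 : ∀ i, dist (r i) ((v + (ρ / L) • (WithLp.toLp 2 fun i => ((z i : ℕ) : ℝ) - L) :
      EuclideanSpace ℝ (Fin n)) i) ^ 2 ≤ (ρ / (2 * L)) ^ 2 := by
    intro i
    rw [Real.dist_eq]
    have e : r i - (v + (ρ / L) • (WithLp.toLp 2 fun i => ((z i : ℕ) : ℝ) - L) :
      EuclideanSpace ℝ (Fin n)) i = r i - v i - ρ / L * (((z i : ℕ) : ℝ) - L) := by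
      simp only [PiLp.add_apply, PiLp.smul_apply, smul_eq_mul]
      ring
    rw [e]
    exact pow_le_pow_left₀ (abs_nonneg _) (hz i) 2
  refine (Finset.sum_le_sum fun i _ => h2 i).trans ?_
  rw [Finset.sum_const, Finset.card_univ, Fintype.card_fin, nsmul_eq_mul]
  have : (ρ / (2 * L)) ^ 2 = ρ ^ 2 / 4 / (L : ℝ) ^ 2 := by field_simp; ring
  rw [this, ← mul_div_assoc, div_le_iff₀ (by positivity)]
  nlinarith [sq_nonneg ρ]

end Pool.Agent.U597.AP
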