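import Mathlib
import Pool.Agent.U597.AP.Main

/-!
# Sets with many terms of long progressions: the main step
-/

set_option autoImplicit false

open Finset Filter Topology
open scoped Classical ENNReal

namespace Pool.Agent.U597.AP
open Pool.Agent.W46.KK

theorem numeric {c D ε s ρ N k Q M v : ℝ} (hc : 0 < c) (hD : 1 ≤ D) (hε : 0 < ε) (hρ : 0 < ρ)
    (hN : 0 ≤ N) (hk : 0 < k) (hQ : 0 < Q) (hM : 0 < M) (h1 : ε / M ≤ v * Q * ρ ^ s)
    (h2 : v ≤ k * (D * N) ^ c) : (ε / (M * k * Q)) ^ (1 / c) / D ≤ N * ρ ^ (s / c) := by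
  have hD0 : 0 < D := by linarith
  have hρs : 0 < ρ ^ s := Real.rpow_pos_of_pos hρ s
  have h3 : ε / M ≤ k * (D * N) ^ c * Q * ρ ^ s := by
    refine h1.trans ?_
    gcongr
  have h4 : ε / (M * k * Q) ≤ (D * N) ^ c * ρ ^ s := by
    rw [div_le_iff₀ (by positivity)]
    rw [div_le_iff₀ hM] at h3
    linarith
  have h5 : (ε / (M * k * Q)) ^ (1 / c) ≤ ((D * N) ^ c * ρ ^ s) ^ (1 / c) :=
    Real.rpow_le_rpow (by positivity) h4 (by positivity)
  have h6 : ((D * N) ^ c * ρ ^ s) ^ (1 / c) = D * N * ρ ^ (s / c) := by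
    rw [Real.mul_rpow (by positivity) hρs.le, ← Real.rpow_mul (by positivity),
      ← Real.rpow_mul hρ.le, mul_one_div_cancel hc.ne', Real.rpow_one, mul_one_div]
  rw [h6] at h5
  rw [div_le_iff₀ hD0]
  linarith

theorem core {n : ℕ} (hn : 1 ≤ n) {c : ℝ} (hc : 0 < c) {q k : ℕ} (hk : 1 ≤ k) {D : ℝ} (hD : 1 ≤ D)
    (hone : ∀ (R B : Set (EuclideanSpace ℝ (Fin n))),
      (∀ r ∈ R, ∃ (a : EuclideanSpace ℝ (Fin n)) (m : ℕ), 1 ≤ m ∧ m ≤ k ∧
        ∀ j : ℕ, j < q → a + (j : ℝ) • ((m : ℝ) • r) ∈ B) →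
      ∀ δ : ℝ, 0 < δ → ∀ V : Finset (EuclideanSpace ℝ (Fin n)), (∀ v ∈ V, v ∈ R) →
        (∀ v ∈ V, ∀ w ∈ V, v ≠ w → ∃ i, δ ≤ |v i - w i|) →
        ∀ (ι : Type) [Fintype ι] (U : ι → Set (EuclideanSpace ℝ (Fin n))),
        (∀ i, ∀ x ∈ U i, ∀ y ∈ U i, dist x y ≤ δ) → B ⊆ ⋃ i, U i →
        (#V : ℝ) ≤ k * (D * (Fintype.card ι : ℝ)) ^ c)
    {l : ℝ} {M : ℕ} (hM : 1 ≤ M)
    (hszem : ∀ E ⊆ Finset.range k, l / M * k ≤ (#E : ℝ) →
      ∃ a m : ℕ, 1 ≤ m ∧ m ≤ k ∧ ∀ j < q, a + m * j ∈ E)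
    {θ τ : ℝ} (hθ0 : 0 < θ) (hθ1 : θ ≤ 1) (hτ : 0 < τ) (hM2 : 1 / θ ≤ (1 + τ) ^ M)
    {L : ℕ} (hL : 1 ≤ L) (hnL : (n : ℝ) ≤ (L : ℝ) ^ 2)
    (R B : Set (EuclideanSpace ℝ (Fin n)))
    (hRB : ∀ r ∈ R, ∃ a : EuclideanSpace ℝ (Fin n),
      l * k ≤ (#((Finset.range k).filter fun j : ℕ => a + (j : ℝ) • r ∈ B) : ℝ))
    {s ε : ℝ} (hs : 0 ≤ s) (hε : 0 < ε) {δ : ℝ} (hδ0 : 0 < δ) (hδ1 : δ < 1)
    (hR : CoverBd ε (δ ^ (1 / θ)) δ s R) :
    CoverBd ((ε / (M * k * (2 * L + 1) ^ n)) ^ (1 / c) / D) (δ ^ (1 / θ)) δ (s / (c * (1 + τ)))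
      B := by
  intro ι t hcov ht
  obtain ⟨s', hs'⟩ : ∃ s' : ℝ, s' = s / (c * (1 + τ)) := ⟨_, rfl⟩
  rw [← hs']
  have hs'0 : 0 ≤ s' := by rw [hs']; positivity
  by_cases htop : ∑' i, Metric.ediam (t i) ^ s' = ⊤
  · rw [htop]
    exact le_top
  have hlow0 : 0 < δ ^ (1 / θ) := Real.rpow_pos_of_pos hδ0 _
  have hfin : Finite ι := by
    have h1 := ENNReal.finite_const_le_of_tsum_ne_top htop
      (ε := ENNReal.ofReal (δ ^ (1 / θ)) ^ s') (by
        apply ne_of_gt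
        apply ENNReal.rpow_pos
        · exact ENNReal.ofReal_pos.2 hlow0
        · exact ENNReal.ofReal_ne_top)
    have h2 : {i | ENNReal.ofReal (δ ^ (1 / θ)) ^ s' ≤ Metric.ediam (t i) ^ s'} = Set.univ := by
      ext i
      simp only [Set.mem_ofPred_eq, Set.mem_univ, iff_true]
      exact ENNReal.rpow_le_rpow (ht i).1 hs'0
    rw [h2] at h1
    exact Set.finite_univ_iff.1 h1
  have : Fintype ι := Fintype.ofFinite ι
  rw [tsum_fintype]
  obtain ⟨ρ, hρ1, hρ2⟩ := scales hδ0 hδ1 hθ0 hθ1 hτ M hM hM2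
  have hρ0 : ∀ i, 0 < ρ i := fun i => lt_of_lt_of_le hlow0 (hρ1 i).1
  obtain ⟨y, hy⟩ : ∃ y : ι → ℝ, y = fun i => (Metric.ediam (t i)).toReal := ⟨_, rfl⟩
  have hyd : ∀ i, Metric.ediam (t i) = ENNReal.ofReal (y i) := by
    intro i
    rw [hy]
    show _ = ENNReal.ofReal ((Metric.ediam (t i)).toReal)
    rw [ENNReal.ofReal_toReal]
    exact ne_top_of_le_ne_top ENNReal.ofReal_ne_top (ht i).2
  have hy0 : ∀ i, 0 ≤ y i := fun i => by rw [hy]; exact ENNReal.toReal_nonneg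
  have hy1 : ∀ i, δ ^ (1 / θ) ≤ y i := fun i => by
    have := (ht i).1
    rw [hyd i] at this
    exact (ENNReal.ofReal_le_ofReal_iff (hy0 i)).1 this
  have hy2 : ∀ i, y i ≤ δ := fun i => by
    have := (ht i).2
    rw [hyd i] at this
    exact (ENNReal.ofReal_le_ofReal_iff hδ0.le).1 this
  have hdist : ∀ i, ∀ x ∈ t i, ∀ z ∈ t i, dist x z ≤ y i := by
    intro i x hx z hz
    have h2 := Metric.edist_le_ediam_of_mem hx hz
    rw [hyd i, edist_dist] at h2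
    exact (ENNReal.ofReal_le_ofReal_iff (hy0 i)).1 h2
  let cls : ℕ → Finset ι := fun i => Finset.univ.filter fun j => ρ i ^ (1 + τ) ≤ y j ∧ y j ≤ ρ i
  let Bc : ℕ → Set (EuclideanSpace ℝ (Fin n)) := fun i => ⋃ j : {j // j ∈ cls i}, t j
  let Rc : ℕ → Set (EuclideanSpace ℝ (Fin n)) := fun i =>
    {r | ∃ (a : EuclideanSpace ℝ (Fin n)) (m : ℕ), 1 ≤ m ∧ m ≤ k ∧
        ∀ j : ℕ, j < q → a + (j : ℝ) • ((m : ℝ) • r) ∈ Bc i}
  have hM0 : (0 : ℝ) < M := by exact_mod_cast hM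
  have hk0 : (0 : ℝ) < k := by exact_mod_cast hk
  -- the classes of differences
  have hRc : ∀ r ∈ R, ∃ i < M, r ∈ Rc i := by
    intro r hr
    obtain ⟨a, ha⟩ := hRB r hr
    obtain ⟨E, hE⟩ : ∃ E : Finset ℕ, E = (Finset.range k).filter
      fun j : ℕ => a + (j : ℝ) • r ∈ B := ⟨_, rfl⟩
    rw [← hE] at ha
    have hEc : ∀ j ∈ E, ∃ i ∈ Finset.range M, a + (j : ℝ) • r ∈ Bc i := by
      intro j hj
      rw [hE, Finset.mem_filter] at hj
      obtain ⟨b, hb⟩ := Set.mem_iUnion.1 (hcov hj.2)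
      obtain ⟨i, hi, h3, h4⟩ := hρ2 (y b) (hy1 b) (hy2 b)
      refine ⟨i, Finset.mem_range.2 hi, Set.mem_iUnion.2 ⟨⟨b, ?_⟩, hb⟩⟩
      exact Finset.mem_filter.2 ⟨Finset.mem_univ _, h3, h4⟩
    have hpig : ∃ i ∈ Finset.range M, l / M * k ≤
        (#(E.filter fun j : ℕ => a + (j : ℝ) • r ∈ Bc i) : ℝ) := by
      by_contra hcon
      push Not at hcon
      have h1 : (#E : ℝ) ≤ ∑ i ∈ Finset.range M,
          (#(E.filter fun j : ℕ => a + (j : ℝ) • r ∈ Bc i) : ℝ) := by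
        have : E ⊆ (Finset.range M).biUnion fun i =>
            E.filter fun j : ℕ => a + (j : ℝ) • r ∈ Bc i := by
          intro j hj
          obtain ⟨i, hi, h2⟩ := hEc j hj
          exact Finset.mem_biUnion.2 ⟨i, hi, Finset.mem_filter.2 ⟨hj, h2⟩⟩
        exact_mod_cast (Finset.card_le_card this).trans Finset.card_biUnion_le
      have h2 : ∑ i ∈ Finset.range M, (#(E.filter fun j : ℕ => a + (j : ℝ) • r ∈ Bc i) : ℝ) <
          ∑ i ∈ Finset.range M, l / M * k :=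
        Finset.sum_lt_sum_of_nonempty ⟨0, Finset.mem_range.2 hM⟩ hcon
      rw [Finset.sum_const, Finset.card_range, nsmul_eq_mul] at h2
      have h3 : (M : ℝ) * (l / M * k) = l * k := by field_simp
      linarith
    obtain ⟨i, hi, hi2⟩ := hpig
    obtain ⟨a', m, hm1, hm2, hm3⟩ := hszem (E.filter fun j : ℕ => a + (j : ℝ) • r ∈ Bc i) (by
      intro j hj
      have := (Finset.mem_filter.1 hj).1
      rw [hE] at this
      exact (Finset.mem_filter.1 this).1) hi2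
    refine ⟨i, Finset.mem_range.1 hi, a + (a' : ℝ) • r, m, hm1, hm2, fun j hj => ?_⟩
    have h4 := (Finset.mem_filter.1 (hm3 j hj)).2
    have e : a + (a' : ℝ) • r + (j : ℝ) • ((m : ℝ) • r) = a + ((a' + m * j : ℕ) : ℝ) • r := by
      push_cast
      rw [smul_smul, add_assoc, ← add_smul]
      congr 2
      ring
    rw [e]
    exact h4
  -- separated sets in the classes
  have hcard : ∀ i, (Fintype.card {j // j ∈ cls i} : ℝ) = #(cls i) := fun i => by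
    rw [Fintype.card_coe]
  have hsep : ∀ i, ∀ V : Finset (EuclideanSpace ℝ (Fin n)), (∀ v ∈ V, v ∈ Rc i) →
      (∀ v ∈ V, ∀ w ∈ V, v ≠ w → ∃ j, ρ i ≤ |v j - w j|) →
      (#V : ℝ) ≤ k * (D * (#(cls i) : ℝ)) ^ c := by
    intro i V h1 h2
    have := hone (Rc i) (Bc i) (fun r hr => hr) (ρ i) (hρ0 i) V h1 h2 {j // j ∈ cls i}
      (fun j => t j) (by
        rintro ⟨j, hj⟩ x hx z hz
        exact (hdist j x hx z hz).trans (Finset.mem_filter.1 hj).2.2) (le_refl _)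
    rwa [hcard] at this
  have hVex := fun i : Fin M => max_sep (Rc i) (ρ i) (hρ0 i)
    ⌊(k : ℝ) * (D * (#(cls i) : ℝ)) ^ c⌋₊ (fun V h1 h2 => Nat.le_floor (hsep i V h1 h2))
  choose V hV1 hV2 hV3 using hVex
  have : Nonempty (Fin n) := ⟨⟨0, hn⟩⟩
  have : Nontrivial (EuclideanSpace ℝ (Fin n)) := inferInstance
  -- the cover of `R`
  have hball : ∀ (x : EuclideanSpace ℝ (Fin n)) (i : Fin M),
      Metric.ediam (Metric.closedBall x (ρ i / 2)) = ENNReal.ofReal (ρ i) := by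
    intro x i
    have h1 := Metric.diam_closedBall_eq x (r := ρ i / 2) (by linarith [hρ0 i])
    have h2 : ENNReal.ofReal (Metric.diam (Metric.closedBall x (ρ i / 2))) =
        Metric.ediam (Metric.closedBall x (ρ i / 2)) := by
      unfold Metric.diam
      exact ENNReal.ofReal_toReal (Metric.isBounded_closedBall.ediam_ne_top)
    rw [← h2, h1]
    congr 1
    ring
  have hRsum := hR (Σ i : Fin M, {v // v ∈ V i} × (Fin n → Fin (2 * L + 1)))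
    (fun x => Metric.closedBall ((x.2.1 : EuclideanSpace ℝ (Fin n)) +
      (ρ x.1 / L) • (WithLp.toLp 2 fun j => ((x.2.2 j : ℕ) : ℝ) - L)) (ρ x.1 / 2)) (by
      intro r hr
      obtain ⟨i, hi, hri⟩ := hRc r hr
      obtain ⟨v, hv, hrv⟩ := hV3 ⟨i, hi⟩ r hri
      obtain ⟨z, hz⟩ := cube_balls L hL hnL (ρ i) (hρ0 i) v r hrv
      exact Set.mem_iUnion.2 ⟨⟨⟨i, hi⟩, ⟨v, hv⟩, z⟩, hz⟩) (by
      rintro ⟨i, v, z⟩
      simp only [hball]
      exact ⟨ENNReal.ofReal_le_ofReal (hρ1 i).1, ENNReal.ofReal_le_ofReal (hρ1 i).2⟩)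
  simp only [hball] at hRsum
  rw [tsum_fintype, Fintype.sum_sigma] at hRsum
  have hQ0 : (0 : ℝ) ≤ (2 * L + 1) ^ n := by positivity
  have hterm : ∀ i : Fin M, 0 ≤ (#(V i) : ℝ) * (2 * L + 1) ^ n * (ρ i) ^ s := fun i =>
    mul_nonneg (mul_nonneg (Nat.cast_nonneg _) hQ0) (Real.rpow_nonneg (hρ0 i).le _)
  have hinner : ∀ i : Fin M, ∑ _x : {v // v ∈ V i} × (Fin n → Fin (2 * L + 1)),
      ENNReal.ofReal (ρ i) ^ s =
        ENNReal.ofReal ((#(V i) : ℝ) * (2 * L + 1) ^ n * (ρ i) ^ s) := by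
    intro i
    rw [Finset.sum_const, Finset.card_univ, Fintype.card_prod, Fintype.card_coe, Fintype.card_fun,
      Fintype.card_fin, Fintype.card_fin, ENNReal.ofReal_rpow_of_pos (hρ0 i), nsmul_eq_mul,
      ENNReal.ofReal_mul (mul_nonneg (Nat.cast_nonneg _) (hQ0))]
    congr 1
    rw [← ENNReal.ofReal_natCast]
    congr 1
    push_cast
    ring
  rw [Finset.sum_congr rfl (fun i _ => hinner i), ← ENNReal.ofReal_sum_of_nonneg (fun i _ => hterm i)] at hRsum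
  have hsum0 : 0 ≤ ∑ i : Fin M, (#(V i) : ℝ) * (2 * L + 1) ^ n * (ρ i) ^ s :=
    Finset.sum_nonneg fun i _ => hterm i
  rw [ENNReal.ofReal_le_ofReal_iff hsum0] at hRsum
  have hexi : ∃ i : Fin M, ε / M ≤ (#(V i) : ℝ) * (2 * L + 1) ^ n * (ρ i) ^ s := by
    by_contra hcon
    push Not at hcon
    have : Nonempty (Fin M) := ⟨⟨0, hM⟩⟩
    have h2 := Finset.sum_lt_sum_of_nonempty (Finset.univ_nonempty (α := Fin M))
      (fun i _ => hcon i)
    rw [Finset.sum_const, Finset.card_univ, Fintype.card_fin, nsmul_eq_mul] at h2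
    have h3 : (M : ℝ) * (ε / M) = ε := by field_simp
    linarith
  obtain ⟨i, hi⟩ := hexi
  have hnum := numeric (N := (#(cls i) : ℝ)) (k := (k : ℝ)) (Q := (2 * L + 1 : ℝ) ^ n)
    (M := (M : ℝ)) hc hD hε (hρ0 i) (Nat.cast_nonneg _) hk0 (by positivity) hM0 hi
    (hsep i (V i) (hV1 i) (hV2 i))
  have hfinal : ENNReal.ofReal ((#(cls i) : ℝ) * ρ i ^ (s / c)) ≤
      ∑ j, Metric.ediam (t j) ^ s' := by
    have h1 : ∑ j ∈ cls i, Metric.ediam (t j) ^ s' ≤ ∑ j, Metric.ediam (t j) ^ s' :=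
      Finset.sum_le_sum_of_subset (Finset.subset_univ _)
    refine le_trans ?_ h1
    have h2 : ∀ j ∈ cls i, ENNReal.ofReal (ρ i ^ (s / c)) ≤ Metric.ediam (t j) ^ s' := by
      intro j hj
      have hj2 := (Finset.mem_filter.1 hj).2.1
      rw [hyd j, ENNReal.ofReal_rpow_of_pos (lt_of_lt_of_le hlow0 (hy1 j))]
      apply ENNReal.ofReal_le_ofReal
      have h3 : ρ i ^ (s / c) = (ρ i ^ (1 + τ)) ^ s' := by
        rw [← Real.rpow_mul (hρ0 i).le, hs']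
        congr 1
        field_simp
      rw [h3]
      exact Real.rpow_le_rpow (Real.rpow_nonneg (hρ0 i).le _) hj2 hs'0
    refine le_trans ?_ (Finset.sum_le_sum h2)
    rw [Finset.sum_const, nsmul_eq_mul, ENNReal.ofReal_mul (Nat.cast_nonneg _),
      ENNReal.ofReal_natCast]
  refine le_trans ?_ hfinal
  apply ENNReal.ofReal_le_ofReal
  exact hnum

end Pool.Agent.U597.AP
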