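import Mathlib
import Pool.Agent.U597.AP.Core

/-!
# Sets with many terms of long progressions: final statements
-/

set_option autoImplicit false

open Finset Filter Topology MeasureTheory
open scoped Classical ENNReal

namespace Pool.Agent.U597.AP
open Pool.Agent.W46.KK

/-- The inequality at one scale. -/
theorem one_scale {c : ℝ} (h : SD c) (hc : 0 < c) {l θ τ : ℝ} (hl : 0 < l) (hθ0 : 0 < θ)
    (hθ1 : θ ≤ 1) (hτ : 0 < τ) : ∃ k0 : ℕ, ∀ k ≥ k0, ∀ n : ℕ, 1 ≤ n → ∃ C : ℝ, 0 < C ∧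
    ∀ R B : Set (EuclideanSpace ℝ (Fin n)),
      (∀ r ∈ R, ∃ a : EuclideanSpace ℝ (Fin n),
        l * k ≤ (#((Finset.range k).filter fun j : ℕ => a + (j : ℝ) • r ∈ B) : ℝ)) →
      ∀ s ε δ : ℝ, 0 ≤ s → 0 < ε → 0 < δ → δ < 1 → CoverBd ε (δ ^ (1 / θ)) δ s R →
        CoverBd (C * ε ^ (1 / c)) (δ ^ (1 / θ)) δ (s / (c * (1 + τ))) B := by
  obtain ⟨q, hq⟩ := one_class h hc
  obtain ⟨M, hM⟩ := pow_unbounded_of_one_lt (1 / θ) (y := 1 + τ) (by linarith)
  have hM1 : 1 ≤ M + 1 := by omega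
  have hM2 : 1 / θ ≤ (1 + τ) ^ (M + 1) :=
    hM.le.trans (pow_le_pow_right₀ (by linarith) (by omega))
  obtain ⟨K0, hK0⟩ := szem_range q (l / ((M + 1 : ℕ) : ℝ)) (by positivity)
  refine ⟨max K0 1, fun k hk n hn => ?_⟩
  have hk0 : K0 ≤ k := (le_max_left _ _).trans hk
  have hk1 : 1 ≤ k := (le_max_right _ _).trans hk
  obtain ⟨D, hD, hone⟩ := hq n
  have hn2 : (n : ℝ) ≤ ((n : ℕ) : ℝ) ^ 2 := by
    have : (1 : ℝ) ≤ n := by exact_mod_cast hn
    nlinarith
  have hkR : (0 : ℝ) < k := by exact_mod_cast hk1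
  obtain ⟨W, hW⟩ : ∃ W : ℝ, W = ((M + 1 : ℕ) : ℝ) * k * (2 * (n : ℝ) + 1) ^ n := ⟨_, rfl⟩
  have hW0 : 0 < W := by rw [hW]; positivity
  refine ⟨(1 / W) ^ (1 / c) / D, by positivity, ?_⟩
  intro R B hRB s ε δ hs hε hδ0 hδ1 hR
  have := core hn hc hk1 hD (hone k) hM1 (fun E hE hE2 => hK0 k hk0 E hE hE2) hθ0 hθ1 hτ hM2
    hn hn2 R B hRB hs hε hδ0 hδ1 hR
  have e : (ε / (((M + 1 : ℕ) : ℝ) * k * (2 * (n : ℝ) + 1) ^ n)) ^ (1 / c) / D =
      (1 / W) ^ (1 / c) / D * ε ^ (1 / c) := by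
    rw [← hW, div_eq_mul_one_div ε W, Real.mul_rpow hε.le (by positivity)]
    ring
  rwa [e] at this

/-- Sets of positive outer measure. -/
theorem vol_bd {n : ℕ} (R : Set (EuclideanSpace ℝ (Fin n))) (hR : volume R ≠ 0) :
    ∃ ε : ℝ, 0 < ε ∧ ∀ ρ δ : ℝ, 0 < ρ → CoverBd ε ρ δ n R := by
  obtain ⟨b, hb⟩ : ∃ b : ℝ≥0∞, b = volume (Metric.closedBall (0 : EuclideanSpace ℝ (Fin n)) 1) :=
    ⟨_, rfl⟩
  have hb0 : b ≠ 0 := by
    rw [hb]
    exact (Metric.measure_closedBall_pos _ _ one_pos).ne'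
  have hbt : b ≠ ⊤ := by
    rw [hb]
    exact (measure_closedBall_lt_top).ne
  obtain ⟨w, hw⟩ : ∃ w : ℝ≥0∞, w = min (volume R / b) 1 := ⟨_, rfl⟩
  have hw0 : w ≠ 0 := by
    rw [hw]
    have : volume R / b ≠ 0 := ENNReal.div_ne_zero.2 ⟨hR, hbt⟩
    exact (lt_min (pos_iff_ne_zero.2 this) one_pos).ne'
  have hwt : w ≠ ⊤ := by
    rw [hw]
    exact ne_top_of_le_ne_top ENNReal.one_ne_top (min_le_right _ _)
  refine ⟨w.toReal, ENNReal.toReal_pos hw0 hwt, fun ρ δ hρ ι t hcov ht => ?_⟩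
  rw [ENNReal.ofReal_toReal hwt]
  have h1 : ∀ i, volume (t i) ≤ b * Metric.ediam (t i) ^ (n : ℝ) := by
    intro i
    rcases (t i).eq_empty_or_nonempty with h0 | ⟨x, hx⟩
    · rw [h0, measure_empty]
      exact zero_le
    · have hfin : Metric.ediam (t i) ≠ ⊤ := ne_top_of_le_ne_top ENNReal.ofReal_ne_top (ht i).2
      have hsub : t i ⊆ Metric.closedBall x (Metric.ediam (t i)).toReal := by
        intro y hy
        rw [Metric.mem_closedBall]
        have h2 := Metric.edist_le_ediam_of_mem hy hx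
        rw [edist_dist, ← ENNReal.ofReal_toReal hfin] at h2
        exact (ENNReal.ofReal_le_ofReal_iff ENNReal.toReal_nonneg).1 h2
      refine (measure_mono hsub).trans ?_
      rw [Measure.addHaar_closedBall' volume x ENNReal.toReal_nonneg, ← hb, finrank_euclideanSpace,
        Fintype.card_fin, ENNReal.ofReal_pow ENNReal.toReal_nonneg, ENNReal.ofReal_toReal hfin,
        mul_comm, ENNReal.rpow_natCast]
  by_cases hcount : Countable ι
  · have h2 : volume R ≤ b * ∑' i, Metric.ediam (t i) ^ (n : ℝ) := by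
      rw [← ENNReal.tsum_mul_left]
      exact (measure_mono hcov).trans ((measure_iUnion_le _).trans (ENNReal.tsum_le_tsum h1))
    rw [hw]
    refine (min_le_left _ _).trans ?_
    rw [ENNReal.div_le_iff hb0 hbt, mul_comm]
    exact h2
  · -- uncountably many sets
    by_cases htop : ∑' i, Metric.ediam (t i) ^ (n : ℝ) = ⊤
    · rw [htop]
      exact le_top
    · exfalso
      have h3 := ENNReal.finite_const_le_of_tsum_ne_top htop
        (ε := ENNReal.ofReal ρ ^ (n : ℝ)) (by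
          apply ne_of_gt
          apply ENNReal.rpow_pos
          · exact ENNReal.ofReal_pos.2 hρ
          · exact ENNReal.ofReal_ne_top)
      have h4 : {i | ENNReal.ofReal ρ ^ (n : ℝ) ≤ Metric.ediam (t i) ^ (n : ℝ)} = Set.univ := by
        ext i
        simp only [Set.mem_ofPred_eq, Set.mem_univ, iff_true]
        exact ENNReal.rpow_le_rpow (ht i).1 (Nat.cast_nonneg n)
      rw [h4] at h3
      have h5 : Finite ι := Set.finite_univ_iff.1 h3
      exact hcount inferInstance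

end Pool.Agent.U597.AP
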